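import Pool.Agent.X248.TS.Poly
import Pool.Agent.X248.TS.Mem
import Pool.Agent.X248.Cx

/-!
# Recognising totally synchronizing digraphs is coNP-complete

The reduction is from exact cover by 3-sets, through a partition of integers into triples of sum
zero (one integer from each of three classes). The digraph has three hubs of weight `k` with
`k - n` loops and `n` edges to the items of one class each, and items of weight `1` all of whose
edges go to the hubs. Friedman's weight theorem shows that a coloring is synchronizing as soon as
two hubs can be merged. In a coloring in which no two hubs can be merged, the letters moving the
hubs are the same for all three hubs, and they group the items into triples each letter of which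
sends a triple bijectively to the hubs; such a coloring exists exactly when the integers can be
partitioned.
-/

set_option autoImplicit false

namespace Pool.Agent.Results.MP_00a7b4_lc.TotSyncCoNPComplete

open Pool.Agent.NPC Pool.Agent.X248 Pool.Agent.X248.TS

/-- **TOTSYNC is coNP-complete** under polynomial-time many-one reductions; in particular it is
decidable in polynomial time if and only if `P = NP`. -/
theorem result : InCoNPP TotSync ∧ CoNPHardP TotSync ∧ (InPP TotSync ↔ PEqNP) :=
  ⟨inCoNPP_totSync, hardI_not_totSync.toCoNPHardP,
    coNP_inP_iff inCoNPP_totSync hardI_not_totSync.toCoNPHardP⟩

end Pool.Agent.Results.MP_00a7b4_lc.TotSyncCoNPComplete
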